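import Pool.Agent.helper99.WN.SpecC

/-!
# MP_5c1f29_al, row O1: a graph with one vertex
-/

set_option autoImplicit false

open Classical

namespace Pool.Agent.WN

open Pool.Agent.NE

theorem O1_mem {V : Type} [Subsingleton V] {k : ℕ} {E : Gr V k} {v0 : V} {D : Finset (Fin k)}
    (hD : ∀ x, x ∈ D ↔ (v0, x, v0) ∈ E) {a c : V} {g : Fr k} (h : PL (lf E) a c g) :
    g ∈ Subgroup.closure (FreeGroup.of '' (D : Set (Fin k))) := by
  have key : ∀ (a : V) (x : Fr k) (c : V), (a, x, c) ∈ lf E →
      x ∈ Subgroup.closure (FreeGroup.of '' (D : Set (Fin k))) := by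
    rintro a x c ⟨e, he, h⟩
    obtain ⟨h1, h2⟩ := Prod.mk.inj h
    obtain ⟨h2, h3⟩ := Prod.mk.inj h2
    rw [h2]
    apply Subgroup.subset_closure
    refine ⟨e.2.1, ?_, rfl⟩
    rw [Finset.mem_coe, hD]
    have h4 : e = (v0, e.2.1, v0) :=
      Prod.ext (Subsingleton.elim _ _) (Prod.ext rfl (Subsingleton.elim _ _))
    rw [← h4]
    exact he
  induction h with
  | nil => exact one_mem _
  | fwd _ he ih => exact mul_mem ih (key _ _ _ he)
  | bwd _ he ih => exact mul_mem ih (inv_mem (key _ _ _ he))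

theorem O1 (hDG : DG_stmt) : O1_stmt := by
  intro V _ k m n w E v0 b hV hn hloop hgen
  have : Subsingleton V := Fintype.card_le_one_iff_subsingleton.1 hV.le
  obtain ⟨D, hD⟩ : ∃ D : Finset (Fin k), ∀ x, x ∈ D ↔ (v0, x, v0) ∈ E :=
    ⟨Finset.univ.filter fun x => (v0, x, v0) ∈ E, fun x => by simp⟩
  have hH : Subgroup.closure (Set.range b) =
      Subgroup.closure (FreeGroup.of '' (D : Set (Fin k))) := by
    apply le_antisymm
    · intro g hg
      exact O1_mem hD ((hloop g).2 hg)
    · rw [Subgroup.closure_le]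
      rintro _ ⟨x, hx, rfl⟩
      exact (hloop _).1 (PL.edge (mem_lf ((hD x).1 (Finset.mem_coe.1 hx))))
  by_cases hall : D = Finset.univ
  · rw [hH, hall, Finset.coe_univ, Set.image_univ, FreeGroup.closure_range_of]
  · exfalso
    have hlt : D.card < k := by
      have h1 : D ⊂ Finset.univ := Finset.ssubset_univ_iff.2 hall
      have h2 := Finset.card_lt_card h1
      rwa [Finset.card_univ, Fintype.card_fin] at h2
    have hb' : Set.range (fun j : Fin D.card => (FreeGroup.of (D.equivFin.symm j : Fin k) : Fr k)) =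
        FreeGroup.of '' (D : Set (Fin k)) := by
      ext g
      constructor
      · rintro ⟨j, rfl⟩
        exact ⟨_, (D.equivFin.symm j).2, rfl⟩
      · rintro ⟨x, hx, rfl⟩
        refine ⟨D.equivFin ⟨x, hx⟩, ?_⟩
        show FreeGroup.of ((D.equivFin.symm (D.equivFin ⟨x, hx⟩) : D) : Fin k) = FreeGroup.of x
        rw [Equiv.symm_apply_apply]
    have hgen' : Gen w n (fun j : Fin D.card =>
        (FreeGroup.of (D.equivFin.symm j : Fin k) : Fr k)) := by
      intro g
      obtain ⟨h, h1, h2⟩ := hgen g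
      refine ⟨h, ?_, h2⟩
      rw [hb', ← hH]
      exact h1
    have := hDG k D.card w n _ hn hgen'
    omega

end Pool.Agent.WN
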